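import Pool.Agent.Helper67.SQ.Comb

/-!
# Coarse differentiation: selection of a scale (MP_9b5db0_gt, block R5)
-/

namespace Helper67.SQ

open Real Finset

theorem h40_lip {f : ℕ → ℝ} {Λ : ℝ} {n : ℕ} (hf : ∀ c < n, |f (c + 1) - f c| ≤ Λ) (a b : ℕ)
    (hab : a + b ≤ n) : |f (a + b) - f a| ≤ Λ * b := by
  induction b with
  | zero => simp
  | succ b ih =>
    have h1 := ih (by omega)
    have h2 := hf (a + b) (by omega)
    have h3 : f (a + (b + 1)) - f a = (f (a + b + 1) - f (a + b)) + (f (a + b) - f a) := by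
      rw [← add_assoc]
      ring
    rw [h3]
    calc |(f (a + b + 1) - f (a + b)) + (f (a + b) - f a)|
        ≤ |f (a + b + 1) - f (a + b)| + |f (a + b) - f a| := abs_add_le _ _
      _ ≤ Λ + Λ * b := add_le_add h2 h1
      _ = Λ * ((b + 1 : ℕ) : ℝ) := by push_cast; ring

/-- the variation of `f` on the grid of mesh `g` starting at `s` -/
noncomputable def h40_var (f : ℕ → ℝ) (s g q : ℕ) : ℝ :=
  ∑ j ∈ range q, |f (s + (j + 1) * g) - f (s + j * g)|

theorem h40_var_ge (f : ℕ → ℝ) (s g q : ℕ) : |f (s + q * g) - f s| ≤ h40_var f s g q := by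
  unfold h40_var
  induction q with
  | zero => simp
  | succ q ih =>
    rw [sum_range_succ]
    have h3 : f (s + (q + 1) * g) - f s = (f (s + q * g) - f s) +
        (f (s + (q + 1) * g) - f (s + q * g)) := by ring
    rw [h3]
    exact (abs_add_le _ _).trans (add_le_add_left ih _)

theorem h40_var_add (f : ℕ → ℝ) (s g q q' : ℕ) :
    h40_var f s g (q + q') = h40_var f s g q + h40_var f (s + q * g) g q' := by
  unfold h40_var
  rw [sum_range_add]
  congr 1
  apply sum_congr rfl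
  intro j _
  have e1 : s + (q + j + 1) * g = s + q * g + (j + 1) * g := by ring
  have e2 : s + (q + j) * g = s + q * g + j * g := by ring
  rw [e1, e2]

/-- grid points on a piece with small defect -/
theorem h40_grid (f : ℕ → ℝ) (s g q : ℕ) {j j' : ℕ} (hj : j ≤ j') (hj' : j' ≤ q) :
    (f (s + q * g) - f s) + 2 * (f (s + j * g) - f (s + j' * g)) ≤ h40_var f s g q := by
  obtain ⟨c, rfl⟩ := Nat.exists_eq_add_of_le hj
  obtain ⟨d, rfl⟩ := Nat.exists_eq_add_of_le hj'
  rw [h40_var_add, h40_var_add]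
  have h1 := h40_var_ge f s g j
  have h2 := h40_var_ge f (s + j * g) g c
  have h3 := h40_var_ge f (s + (j + c) * g) g d
  have e1 : s + j * g + c * g = s + (j + c) * g := by ring
  have e2 : s + (j + c) * g + d * g = s + (j + c + d) * g := by ring
  rw [e1] at h2
  rw [e2] at h3
  have h4 := (abs_le.1 h1).2
  have h5 := (abs_le.1 h2).1
  have h6 := (abs_le.1 h3).2
  linarith

/-- a piece with small defect on which `f` does not go down is nearly monotone -/
theorem h40_up {f : ℕ → ℝ} {Λ ε : ℝ} (hΛ : 0 < Λ) {n : ℕ}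
    (hf : ∀ c < n, |f (c + 1) - f c| ≤ Λ) (s g q : ℕ) (hg : 0 < g) (hs : s + q * g ≤ n)
    (hq : 4 * Λ ≤ ε * q) (hup : f s ≤ f (s + q * g))
    (hd : h40_var f s g q - |f (s + q * g) - f s| ≤ ε / 2 * (q * g : ℕ)) :
    UpTo (fun b => f (s + b)) (q * g) (ε * (q * g : ℕ)) := by
  intro b b' hbb hb'
  set j := b / g with hjdef
  set j' := b' / g with hj'def
  have hjj : j ≤ j' := Nat.div_le_div_right hbb
  have hj'q : j' ≤ q := by
    rw [hj'def]
    exact Nat.div_le_of_le_mul (by rwa [mul_comm])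
  have hb1 : j * g + b % g = b := by rw [hjdef, mul_comm]; exact Nat.div_add_mod b g
  have hb2 : j' * g + b' % g = b' := by rw [hj'def, mul_comm]; exact Nat.div_add_mod b' g
  have hm1 : b % g < g := Nat.mod_lt _ hg
  have hm2 : b' % g < g := Nat.mod_lt _ hg
  have h1 := h40_lip hf (s + j * g) (b % g) (by
    have : s + j * g + b % g = s + b := by omega
    omega)
  have h2 := h40_lip hf (s + j' * g) (b' % g) (by omega)
  have e1 : s + j * g + b % g = s + b := by omega
  have e2 : s + j' * g + b' % g = s + b' := by omega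
  rw [e1] at h1
  rw [e2] at h2
  have h3 := h40_grid f s g q hjj hj'q
  have h4 : |f (s + q * g) - f s| = f (s + q * g) - f s := abs_of_nonneg (by linarith)
  rw [h4] at hd
  have h5 : Λ * ((b % g : ℕ) : ℝ) ≤ Λ * g := by
    apply mul_le_mul_of_nonneg_left _ hΛ.le
    exact_mod_cast hm1.le
  have h6 : Λ * ((b' % g : ℕ) : ℝ) ≤ Λ * g := by
    apply mul_le_mul_of_nonneg_left _ hΛ.le
    exact_mod_cast hm2.le
  have h7 : 4 * Λ * g ≤ ε * (q * g : ℕ) := by
    push_cast
    rw [← mul_assoc]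
    exact mul_le_mul_of_nonneg_right hq (by positivity)
  have h8 := (abs_le.1 h1).2
  have h9 := (abs_le.1 h2).1
  change f (s + b) ≤ f (s + b') + ε * (q * g : ℕ)
  have h10 : 0 ≤ ε * (q * g : ℕ) := by
    refine le_trans ?_ h7
    positivity
  linarith

theorem h40_updown {f : ℕ → ℝ} {Λ ε : ℝ} (hΛ : 0 < Λ) {n : ℕ}
    (hf : ∀ c < n, |f (c + 1) - f c| ≤ Λ) (s g q : ℕ) (hg : 0 < g) (hs : s + q * g ≤ n)
    (hq : 4 * Λ ≤ ε * q)
    (hd : h40_var f s g q - |f (s + q * g) - f s| ≤ ε / 2 * (q * g : ℕ)) :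
    UpTo (fun b => f (s + b)) (q * g) (ε * (q * g : ℕ)) ∨
      UpTo (fun b => - f (s + b)) (q * g) (ε * (q * g : ℕ)) := by
  rcases le_total (f s) (f (s + q * g)) with h | h
  · exact Or.inl (h40_up hΛ hf s g q hg hs hq h hd)
  · right
    have hf' : ∀ c < n, |(fun b => - f b) (c + 1) - (fun b => - f b) c| ≤ Λ := by
      intro c hc
      have := hf c hc
      change |- f (c + 1) - - f c| ≤ Λ
      rw [← abs_neg]
      convert this using 2
      ring
    have hv : h40_var (fun b => - f b) s g q = h40_var f s g q := by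
      unfold h40_var
      apply sum_congr rfl
      intro j _
      change |- f _ - - f _| = _
      rw [← abs_neg]
      congr 1
      ring
    refine h40_up (f := fun b => - f b) hΛ hf' s g q hg hs hq (neg_le_neg h) ?_
    rw [hv]
    have e : |(fun b => - f b) (s + q * g) - (fun b => - f b) s| = |f (s + q * g) - f s| := by
      change |- f _ - - f _| = _
      rw [← abs_neg]
      congr 1
      ring
    rw [e]
    exact hd

theorem h40_var_block (f : ℕ → ℝ) (g q P : ℕ) :
    h40_var f 0 g (P * q) = ∑ k ∈ range P, h40_var f (k * (q * g)) g q := by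
  induction P with
  | zero => simp [h40_var]
  | succ P ih =>
    rw [sum_range_succ, ← ih, Nat.succ_mul, h40_var_add]
    congr 2
    ring

theorem scale_selection (Λ ε κ : ℝ) (hΛ : 0 < Λ) (hε : 0 < ε) (hκ : 0 < κ) (r₁ : ℕ) :
    ∃ n₀ E : ℕ, ∀ n : ℕ, n₀ ≤ n → ∀ (I : Finset ℕ) (τ : ℕ → ℕ → ℝ),
    (∀ i ∈ I, ∀ b < n, |τ i (b + 1) - τ i b| ≤ Λ) →
    ∃ r P : ℕ, r₁ ≤ r ∧ 1 ≤ P ∧ P * r ≤ n ∧ n ≤ P * r + E ∧
    ∀ B : Finset (ℕ × ℕ), (∀ x ∈ B, x.1 ∈ I ∧ x.2 < P ∧
      ¬ UpTo (fun b => τ x.1 (x.2 * r + b)) r (ε * r) ∧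
      ¬ UpTo (fun b => - τ x.1 (x.2 * r + b)) r (ε * r)) → (B.card : ℝ) ≤ κ * I.card * P := by
  set q : ℕ := ⌈4 * Λ / ε⌉₊ + 1 with hq
  set M : ℕ := ⌈2 * Λ / (ε * κ)⌉₊ + 1 with hM
  have hqpos : 0 < q := Nat.succ_pos _
  have hMpos : 0 < M := Nat.succ_pos _
  have hqε : 4 * Λ ≤ ε * q := by
    have h1 : 4 * Λ / ε ≤ q := by
      rw [hq]
      push_cast
      exact (Nat.le_ceil _).trans (by linarith)
    rw [div_le_iff₀ hε] at h1
    linarith
  have hMκ : 2 * Λ ≤ ε * κ * M := by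
    have h1 : 2 * Λ / (ε * κ) ≤ M := by
      rw [hM]
      push_cast
      exact (Nat.le_ceil _).trans (by linarith)
    rw [div_le_iff₀ (by positivity)] at h1
    linarith
  refine ⟨q ^ M * max r₁ 1, q ^ M, ?_⟩
  intro n hn I τ hτ
  set r₀ : ℕ := n / q ^ M with hr₀
  have hqM : 0 < q ^ M := pow_pos hqpos _
  have hr₀1 : max r₁ 1 ≤ r₀ := by
    rw [hr₀, Nat.le_div_iff_mul_le hqM, mul_comm]
    exact hn
  have hr₀n : r₀ * q ^ M ≤ n := Nat.div_mul_le_self _ _
  have hr₀n' : n ≤ r₀ * q ^ M + q ^ M := by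
    have h1 := Nat.div_add_mod n (q ^ M)
    have h2 := Nat.mod_lt n hqM
    rw [← hr₀] at h1
    rw [mul_comm]
    omega
  -- the variations at the scales `r₀ q ^ m`
  let A : ℕ → ℝ := fun m => ∑ i ∈ I, h40_var (τ i) 0 (r₀ * q ^ m) (q ^ (M - m))
  have hA0 : A 0 ≤ Λ * (r₀ * q ^ M : ℕ) * I.card := by
    have : ∀ i ∈ I, h40_var (τ i) 0 (r₀ * q ^ 0) (q ^ (M - 0)) ≤ Λ * (r₀ * q ^ M : ℕ) := by
      intro i hi
      unfold h40_var
      rw [pow_zero, mul_one, Nat.sub_zero]
      calc ∑ j ∈ range (q ^ M), |τ i (0 + (j + 1) * r₀) - τ i (0 + j * r₀)|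
          ≤ ∑ j ∈ range (q ^ M), Λ * (r₀ : ℝ) := by
            apply sum_le_sum
            intro j hj
            have e : 0 + (j + 1) * r₀ = (0 + j * r₀) + r₀ := by ring
            rw [e]
            refine h40_lip (hτ i hi) _ _ ?_
            have h1 : (j + 1) * r₀ ≤ q ^ M * r₀ :=
              Nat.mul_le_mul_right _ (mem_range.1 hj)
            have h2 : q ^ M * r₀ ≤ n := by rw [mul_comm]; exact hr₀n
            rw [← e, zero_add]
            exact h1.trans h2
        _ = Λ * (r₀ * q ^ M : ℕ) := by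
            rw [sum_const, card_range, nsmul_eq_mul]
            push_cast
            ring
    calc A 0 ≤ ∑ i ∈ I, Λ * (r₀ * q ^ M : ℕ) := sum_le_sum this
      _ = Λ * (r₀ * q ^ M : ℕ) * I.card := by
        rw [sum_const, nsmul_eq_mul]
        ring
  have hAM : 0 ≤ A M := sum_nonneg fun i _ => sum_nonneg fun j _ => abs_nonneg _
  obtain ⟨m, hm, hAm⟩ : ∃ m ∈ range M, A m - A (m + 1) ≤
      Λ * (r₀ * q ^ M : ℕ) * I.card / M := by
    apply exists_le_of_sum_le (nonempty_range_iff.2 hMpos.ne')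
    rw [sum_range_sub', sum_const, card_range, nsmul_eq_mul, mul_div_cancel₀]
    · linarith
    · exact_mod_cast hMpos.ne'
  rw [mem_range] at hm
  set g : ℕ := r₀ * q ^ m with hg
  set P : ℕ := q ^ (M - m - 1) with hP
  have hgpos : 0 < g := Nat.mul_pos (by omega) (pow_pos hqpos _)
  have hPpos : 0 < P := pow_pos hqpos _
  have hPr : P * (q * g) = r₀ * q ^ M := by
    have h1 : q ^ M = q ^ (M - m - 1) * q * q ^ m := by
      rw [← pow_succ, ← pow_add]
      congr 1
      omega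
    rw [hP, hg, h1]
    ring
  have hg' : r₀ * q ^ (m + 1) = q * g := by rw [hg, pow_succ]; ring
  refine ⟨q * g, P, ?_, hPpos, by rw [hPr]; exact hr₀n, by rw [hPr]; exact hr₀n', ?_⟩
  · have h1 : r₀ ≤ q * g := by
      rw [hg]
      calc r₀ = 1 * (r₀ * 1) := by ring
        _ ≤ q * (r₀ * q ^ m) := Nat.mul_le_mul hqpos (Nat.mul_le_mul_left _ (pow_pos hqpos _))
    omega
  · intro B hB
    -- defects
    let df : ℕ → ℕ → ℝ := fun i k =>
      h40_var (τ i) (k * (q * g)) g q - |τ i (k * (q * g) + q * g) - τ i (k * (q * g))|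
    have hdf0 : ∀ i k, 0 ≤ df i k := fun i k => sub_nonneg.2 (h40_var_ge _ _ _ _)
    have hsum : A m - A (m + 1) = ∑ i ∈ I, ∑ k ∈ range P, df i k := by
      change ∑ i ∈ I, h40_var (τ i) 0 (r₀ * q ^ m) (q ^ (M - m)) -
        ∑ i ∈ I, h40_var (τ i) 0 (r₀ * q ^ (m + 1)) (q ^ (M - (m + 1))) = _
      rw [← sum_sub_distrib]
      apply sum_congr rfl
      intro i _
      have e1 : q ^ (M - m) = P * q := by
        rw [hP, ← pow_succ]
        congr 1
        omega
      have e2 : q ^ (M - (m + 1)) = P := by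
        rw [hP]
        congr 1
      rw [e1, e2, ← hg, hg', h40_var_block]
      unfold df
      rw [sum_sub_distrib]
      congr 1
      unfold h40_var
      apply sum_congr rfl
      intro k _
      congr 3
      · ring
      · ring
    have hlow : ∀ x ∈ B, ε / 2 * (q * g : ℕ) ≤ df x.1 x.2 := by
      intro x hx
      obtain ⟨h1, h2, h3, h4⟩ := hB x hx
      by_contra hc
      rw [not_le] at hc
      have hs : x.2 * (q * g) + q * g ≤ n := by
        calc x.2 * (q * g) + q * g = (x.2 + 1) * (q * g) := by ring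
          _ ≤ P * (q * g) := Nat.mul_le_mul_right _ h2
          _ ≤ n := by rw [hPr]; exact hr₀n
      rcases h40_updown hΛ (hτ x.1 h1) (x.2 * (q * g)) g q hgpos hs hqε hc.le with h5 | h5
      · exact h3 h5
      · exact h4 h5
    have hBsum : (B.card : ℝ) * (ε / 2 * (q * g : ℕ)) ≤ ∑ i ∈ I, ∑ k ∈ range P, df i k := by
      calc (B.card : ℝ) * (ε / 2 * (q * g : ℕ)) = ∑ x ∈ B, ε / 2 * (q * g : ℕ) := by
            rw [sum_const, nsmul_eq_mul]
        _ ≤ ∑ x ∈ B, df x.1 x.2 := sum_le_sum hlow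
        _ ≤ ∑ x ∈ I ×ˢ range P, df x.1 x.2 := by
            apply sum_le_sum_of_subset_of_nonneg
            · intro x hx
              rw [mem_product, mem_range]
              exact ⟨(hB x hx).1, (hB x hx).2.1⟩
            · intro x _ _
              exact hdf0 _ _
        _ = _ := sum_product _ _ _
    rw [← hsum] at hBsum
    have h1 := hBsum.trans hAm
    rw [← hPr] at h1
    have hM0 : (0 : ℝ) < M := by exact_mod_cast hMpos
    have hr0 : (0 : ℝ) < (q * g : ℕ) := by exact_mod_cast Nat.mul_pos hqpos hgpos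
    rw [le_div_iff₀ hM0] at h1
    have h2 : (B.card : ℝ) * (ε * M) ≤ 2 * Λ * P * I.card := by
      have h3 : ((B.card : ℝ) * (ε * M)) * (q * g : ℕ) ≤ (2 * Λ * P * I.card) * (q * g : ℕ) := by
        push_cast at h1 ⊢
        linarith
      exact le_of_mul_le_mul_right h3 hr0
    have h3 : 2 * Λ * P * I.card ≤ ε * κ * M * (P * I.card) := by
      have : (0 : ℝ) ≤ P * I.card := by positivity
      calc 2 * Λ * P * I.card = 2 * Λ * (P * I.card) := by ring
        _ ≤ _ := mul_le_mul_of_nonneg_right hMκ this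
    have h4 : (B.card : ℝ) * (ε * M) ≤ (κ * I.card * P) * (ε * M) := by
      calc (B.card : ℝ) * (ε * M) ≤ _ := h2.trans h3
        _ = _ := by ring
    exact le_of_mul_le_mul_right h4 (by positivity)

end Helper67.SQ
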