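import Pool.Agent.Helper36.SQ.Piece
import Pool.Agent.Helper40.SQ.Scale

/-!
# Non-concentration of the `x`-coordinate (MP_9b5db0_gt, block R6)
-/

namespace Helper67.SQ

open Real Finset

theorem h40_M_pos (X T : V → ℝ) (c : ℝ) (p : V) : 0 < M X T c p :=
  lt_of_lt_of_le (exp_pos _) (le_max_left _ _)

theorem h40_UpTo_mono {τ : ℕ → ℝ} {r : ℕ} {e e' : ℝ} (h : UpTo τ r e) (he : e ≤ e') :
    UpTo τ r e' := fun b b' h1 h2 => (h b b' h1 h2).trans (by linarith)

/-- `M` along a ray -/
theorem h40_M_ray {Λ : ℝ} {X Y T : V → ℝ} (h : Coarse Λ X Y T) (c : ℝ) (v : V) (n i a b : ℕ)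
    (hab : a + b ≤ n) :
    exp (-(3 * Λ * b)) * M X T c (ray v n i a) ≤ M X T c (ray v n i (a + b)) := by
  induction b with
  | zero => simp
  | succ b ih =>
    have h1 := ih (by omega)
    have h2 := M_step h c (ray_adj v n i (a + b) (by omega))
    rw [← add_assoc]
    refine le_trans ?_ h2
    have e : exp (-(3 * Λ * ((b + 1 : ℕ) : ℝ))) = exp (-(3 * Λ)) * exp (-(3 * Λ * b)) := by
      rw [← exp_add]
      congr 1
      push_cast
      ring
    rw [e, mul_assoc]
    exact mul_le_mul_of_nonneg_left h1 (exp_pos _).le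

/-- a product of steps, some of them exceptional -/
theorem h40_steps (m : ℕ → ℝ) (P : ℕ) (Ex : Finset ℕ) (α β : ℝ) (hm0 : ∀ k, 0 < m k)
    (hα : 0 ≤ α) (hgood : ∀ k < P, k ∉ Ex → exp (-α) * m k ≤ m (k + 1))
    (hbad : ∀ k < P, k ∈ Ex → exp (-β) * m k ≤ m (k + 1)) (k : ℕ) (hk : k ≤ P) :
    exp (-(α * k + β * (Ex.filter (· < k)).card)) * m 0 ≤ m k := by
  induction k with
  | zero => simp
  | succ k ih =>
    have h1 := ih (by omega)
    by_cases hk' : k ∈ Ex
    · have hc : (Ex.filter (· < k + 1)).card = (Ex.filter (· < k)).card + 1 := by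
        have : Ex.filter (· < k + 1) = insert k (Ex.filter (· < k)) := by
          ext x
          simp only [mem_filter, mem_insert]
          constructor
          · rintro ⟨hx, hx'⟩
            rcases Nat.lt_succ_iff_lt_or_eq.1 hx' with h2 | h2
            · exact Or.inr ⟨hx, h2⟩
            · exact Or.inl h2
          · rintro (rfl | ⟨hx, hx'⟩)
            · exact ⟨hk', Nat.lt_succ_self _⟩
            · exact ⟨hx, hx'.trans (Nat.lt_succ_self _)⟩
        rw [this, card_insert_of_notMem (by simp)]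
      rw [hc]
      refine le_trans ?_ (hbad k (by omega) hk')
      calc exp (-(α * ((k + 1 : ℕ) : ℝ) + β * (((Ex.filter (· < k)).card + 1 : ℕ) : ℝ))) * m 0
          = exp (-α) * (exp (-β) * (exp (-(α * k + β * (Ex.filter (· < k)).card)) * m 0)) := by
            rw [← mul_assoc, ← mul_assoc, ← exp_add, ← exp_add]
            congr 2
            push_cast
            ring
        _ ≤ 1 * (exp (-β) * (exp (-(α * k + β * (Ex.filter (· < k)).card)) * m 0)) := by
            apply mul_le_mul_of_nonneg_right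
            · rw [exp_le_one_iff]
              linarith
            · have := hm0 0
              positivity
        _ = exp (-β) * (exp (-(α * k + β * (Ex.filter (· < k)).card)) * m 0) := one_mul _
        _ ≤ exp (-β) * m k := mul_le_mul_of_nonneg_left h1 (exp_pos _).le
    · have hc : (Ex.filter (· < k + 1)).card = (Ex.filter (· < k)).card := by
        congr 1
        ext x
        simp only [mem_filter]
        constructor
        · rintro ⟨hx, hx'⟩
          rcases Nat.lt_succ_iff_lt_or_eq.1 hx' with h2 | h2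
          · exact ⟨hx, h2⟩
          · exact absurd (h2 ▸ hx) hk'
        · rintro ⟨hx, hx'⟩
          exact ⟨hx, hx'.trans (Nat.lt_succ_self _)⟩
      rw [hc]
      refine le_trans ?_ (hgood k (by omega) hk')
      calc exp (-(α * ((k + 1 : ℕ) : ℝ) + β * ((Ex.filter (· < k)).card : ℝ))) * m 0
          = exp (-α) * (exp (-(α * k + β * (Ex.filter (· < k)).card)) * m 0) := by
            rw [← mul_assoc, ← exp_add]
            congr 2
            push_cast
            ring
        _ ≤ exp (-α) * m k := mul_le_mul_of_nonneg_left h1 (exp_pos _).le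

/-- counting indices with a prescribed behaviour of the digits at the positions `[a, a + r)` -/
theorem h40_count (n a r : ℕ) (har : a + r ≤ n) (Q : ℕ → ℕ → Prop) (κ : ℝ)
    (hQ : ∀ u < 2 ^ a, ∀ S : Finset ℕ, (∀ j ∈ S, j < 2 ^ r ∧ Q u j) → (S.card : ℝ) ≤ κ * 2 ^ r)
    (A : Finset ℕ) (hA : ∀ i ∈ A, i < 2 ^ n ∧ Q (i / 2 ^ (n - a)) (i / 2 ^ (n - (a + r)) % 2 ^ r)) :
    (A.card : ℝ) ≤ κ * 2 ^ n := by
  classical
  let f : ℕ → ℕ × ℕ := fun i => (i / 2 ^ (n - a), i % 2 ^ (n - (a + r)))
  have hmaps : ∀ i ∈ A, f i ∈ range (2 ^ a) ×ˢ range (2 ^ (n - (a + r))) := by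
    intro i hi
    rw [mem_product, mem_range, mem_range]
    refine ⟨?_, Nat.mod_lt _ (by positivity)⟩
    apply Nat.div_lt_of_lt_mul
    rw [← pow_add]
    have : n - a + a = n := by omega
    rw [this]
    exact (hA i hi).1
  have hdig : ∀ i : ℕ, i / 2 ^ (n - (a + r)) = i / 2 ^ (n - a) * 2 ^ r +
      i / 2 ^ (n - (a + r)) % 2 ^ r := by
    intro i
    have h1 : i / 2 ^ (n - a) = i / 2 ^ (n - (a + r)) / 2 ^ r := by
      rw [Nat.div_div_eq_div_mul, ← pow_add]
      congr 2
      omega
    rw [h1, mul_comm]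
    exact (Nat.div_add_mod _ _).symm
  rw [card_eq_sum_card_fiberwise hmaps]
  push_cast
  have hfib : ∀ x ∈ range (2 ^ a) ×ˢ range (2 ^ (n - (a + r))),
      (((A.filter fun i => f i = x).card : ℕ) : ℝ) ≤ κ * 2 ^ r := by
    rintro ⟨u, w⟩ hx
    rw [mem_product, mem_range, mem_range] at hx
    have hinj : Set.InjOn (fun i => i / 2 ^ (n - (a + r)) % 2 ^ r)
        (A.filter fun i => f i = (u, w) : Finset ℕ) := by
      intro i hi i' hi' he
      rw [mem_coe, mem_filter] at hi hi'
      have e1 : i / 2 ^ (n - a) = u := congrArg Prod.fst hi.2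
      have e2 : i % 2 ^ (n - (a + r)) = w := congrArg Prod.snd hi.2
      have e3 : i' / 2 ^ (n - a) = u := congrArg Prod.fst hi'.2
      have e4 : i' % 2 ^ (n - (a + r)) = w := congrArg Prod.snd hi'.2
      have h1 := hdig i
      have h2 := hdig i'
      rw [e1] at h1
      rw [e3] at h2
      have he' : i / 2 ^ (n - (a + r)) % 2 ^ r = i' / 2 ^ (n - (a + r)) % 2 ^ r := he
      rw [he'] at h1
      have h3 : i / 2 ^ (n - (a + r)) = i' / 2 ^ (n - (a + r)) := h1.trans h2.symm
      rw [← Nat.div_add_mod i (2 ^ (n - (a + r))), ← Nat.div_add_mod i' (2 ^ (n - (a + r))),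
        h3, e2, e4]
    rw [← card_image_of_injOn hinj]
    apply hQ u hx.1
    intro j hj
    rw [mem_image] at hj
    obtain ⟨i, hi, rfl⟩ := hj
    rw [mem_filter] at hi
    have e1 : i / 2 ^ (n - a) = u := congrArg Prod.fst hi.2
    refine ⟨Nat.mod_lt _ (by positivity), ?_⟩
    have := (hA i hi.1).2
    rwa [e1] at this
  refine (sum_le_sum hfib).trans (le_of_eq ?_)
  rw [sum_const, card_product, card_range, card_range, nsmul_eq_mul]
  have e : (2 : ℝ) ^ n = 2 ^ a * 2 ^ (n - (a + r)) * 2 ^ r := by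
    rw [← pow_add, ← pow_add]
    congr 1
    omega
  rw [e]
  push_cast
  ring

theorem nonconc (Λ ε κ : ℝ) (hΛ : 1 ≤ Λ) (hε : 0 < ε) (hκ : 0 < κ) : ∃ n₀ : ℕ,
    ∀ X Y T : V → ℝ, Coarse Λ X Y T → ∀ (c : ℝ) (v : V) (n : ℕ), n₀ ≤ n →
    ∀ S : Finset ℕ, (∀ i ∈ S, i < 2 ^ n ∧
      M X T c (desc v n i) < exp (-(ε * n)) * M X T c v) → (S.card : ℝ) ≤ κ * 2 ^ n := by
  classical
  have hΛ0 : 0 < Λ := by linarith
  obtain ⟨εu, hεu, hup⟩ := up_piece Λ (ε / 4) hΛ (by positivity)
  set ε₃ : ℝ := min εu (ε / 8) with hε₃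
  have hε₃0 : 0 < ε₃ := lt_min hεu (by positivity)
  set κ₁ : ℝ := κ * ε / (24 * Λ) with hκ₁
  have hκ₁0 : 0 < κ₁ := by positivity
  obtain ⟨rd, hdown⟩ := down_piece Λ ε₃ hΛ hε₃0
  obtain ⟨ru, hup⟩ := hup κ₁ hκ₁0
  obtain ⟨n₀, E, hsc⟩ := scale_selection Λ ε₃ κ₁ hΛ0 hε₃0 hκ₁0 (max (max rd ru) 1)
  refine ⟨max n₀ ⌈12 * Λ * E / ε⌉₊, ?_⟩
  intro X Y T hco c v n hn S hS
  have hn0 : n₀ ≤ n := (le_max_left _ _).trans hn
  have hnE : 12 * Λ * E ≤ ε * n := by
    have h1 : 12 * Λ * E / ε ≤ n :=
      (Nat.le_ceil _).trans (by exact_mod_cast (le_max_right _ _).trans hn)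
    rw [div_le_iff₀ hε] at h1
    linarith
  obtain ⟨r, P, hr, hP, hPn, hPE, hB⟩ := hsc n hn0 (range (2 ^ n))
    (fun i b => T (ray v n i b)) (by
      intro i _ b hb
      have := hco.t_step _ _ (ray_adj v n i b hb)
      rw [abs_sub_comm]
      exact this)
  have hrd : rd ≤ r := ((le_max_left _ _).trans (le_max_left _ _)).trans hr
  have hru : ru ≤ r := ((le_max_right _ _).trans (le_max_left _ _)).trans hr
  have hr1 : 1 ≤ r := (le_max_right _ _).trans hr
  have hpiece : ∀ k < P, k * r + r ≤ n := fun k hk =>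
    calc k * r + r = (k + 1) * r := by ring
      _ ≤ P * r := Nat.mul_le_mul_right _ hk
      _ ≤ n := hPn
  -- the pieces of the rays
  let U : ℕ → ℕ → Prop := fun i k => UpTo (fun b => T (ray v n i (k * r + b))) r (ε₃ * r)
  let D : ℕ → ℕ → Prop := fun i k => UpTo (fun b => - T (ray v n i (k * r + b))) r (ε₃ * r)
  let Dr : ℕ → ℕ → Prop := fun i k =>
    M X T c (ray v n i (k * r + r)) < exp (-(ε / 4 * r)) * M X T c (ray v n i (k * r))
  let B : Finset (ℕ × ℕ) := (range (2 ^ n) ×ˢ range P).filter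
    fun x => ¬ U x.1 x.2 ∧ ¬ D x.1 x.2
  have hBcard : (B.card : ℝ) ≤ κ₁ * 2 ^ n * P := by
    have := hB B (by
      intro x hx
      rw [mem_filter, mem_product, mem_range] at hx
      exact ⟨mem_range.2 hx.1.1, mem_range.1 hx.1.2, hx.2.1, hx.2.2⟩)
    rw [card_range] at this
    push_cast at this
    exact this
  let C : Finset (ℕ × ℕ) := (range (2 ^ n) ×ˢ range P).filter fun x => U x.1 x.2 ∧ Dr x.1 x.2
  -- for a fixed piece
  have hCk : ∀ k < P, (((range (2 ^ n)).filter fun i => U i k ∧ Dr i k).card : ℝ) ≤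
      κ₁ * 2 ^ n := by
    intro k hk
    have hkr := hpiece k hk
    refine h40_count n (k * r) r hkr (fun u j =>
      UpTo (fun b => T (ray (desc v (k * r) u) r j b)) r (ε₃ * r) ∧
      M X T c (desc (desc v (k * r) u) r j) <
        exp (-(ε / 4 * r)) * M X T c (desc v (k * r) u)) κ₁ ?_ _ ?_
    · intro u _ A hA
      refine hup X Y T hco c (desc v (k * r) u) r hru A fun j hj => ?_
      obtain ⟨h1, h2, h3⟩ := hA j hj
      refine ⟨h1, h40_UpTo_mono h2 ?_, h3⟩
      exact mul_le_mul_of_nonneg_right (min_le_left _ _) (Nat.cast_nonneg _)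
    · intro i hi
      rw [mem_filter, mem_range] at hi
      obtain ⟨h1, h2, h3⟩ := hi
      have e1 : desc v (k * r) (i / 2 ^ (n - k * r)) = ray v n i (k * r) := rfl
      have e2 : ∀ b ≤ r, ray (ray v n i (k * r)) r (i / 2 ^ (n - (k * r + r)) % 2 ^ r) b =
          ray v n i (k * r + b) := fun b hb => ray_ray v n i (k * r) r b hkr hb
      refine ⟨h1, ?_, ?_⟩
      · rw [e1]
        intro b b' hb hb'
        have h4 := h2 b b' hb hb'
        change T (ray v n i (k * r + b)) ≤ T (ray v n i (k * r + b')) + ε₃ * r at h4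
        change T (ray (ray v n i (k * r)) r _ b) ≤ T (ray (ray v n i (k * r)) r _ b') + ε₃ * r
        rw [e2 b (hb.trans hb'), e2 b' hb']
        exact h4
      · rw [e1, ← ray_last, e2 r le_rfl]
        exact h3
  have hCcard : (C.card : ℝ) ≤ κ₁ * 2 ^ n * P := by
    have hmaps : ∀ x ∈ C, x.2 ∈ range P := fun x hx => by
      rw [mem_filter, mem_product] at hx
      exact hx.1.2
    rw [card_eq_sum_card_fiberwise hmaps]
    push_cast
    calc ∑ k ∈ range P, (((C.filter fun x => x.2 = k).card : ℕ) : ℝ)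
        ≤ ∑ k ∈ range P, κ₁ * 2 ^ n := by
          apply sum_le_sum
          intro k hk
          rw [mem_range] at hk
          refine le_trans ?_ (hCk k hk)
          norm_cast
          apply card_le_card_of_injOn Prod.fst
          · intro x hx
            rw [mem_coe, mem_filter, mem_filter, mem_product] at hx
            obtain ⟨⟨⟨h1, h2⟩, h3, h4⟩, rfl⟩ := hx
            rw [mem_coe, mem_filter]
            exact ⟨h1, h3, h4⟩
          · intro x hx x' hx' he
            rw [mem_coe, mem_filter] at hx hx'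
            exact Prod.ext he (hx.2.trans hx'.2.symm)
      _ = κ₁ * 2 ^ n * P := by
          rw [sum_const, card_range, nsmul_eq_mul]
          ring
  -- the exceptional pieces of a ray
  let Ex : ℕ → Finset ℕ := fun i => (range P).filter fun k =>
    (¬ U i k ∧ ¬ D i k) ∨ (U i k ∧ Dr i k)
  have hExcard : ∀ i ∈ S, ε * P / (6 * Λ) ≤ (Ex i).card := by
    intro i hi
    obtain ⟨hi1, hi2⟩ := hS i hi
    have hM0 : ∀ k : ℕ, 0 < M X T c (ray v n i (k * r)) := fun k => h40_M_pos _ _ _ _
    have hsteps := h40_steps (fun k => M X T c (ray v n i (k * r))) P (Ex i) (ε / 4 * r)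
      (3 * Λ * r) hM0 (by positivity) ?_ ?_ P le_rfl
    · -- conclusion
      have hfil : (Ex i).filter (· < P) = Ex i := by
        apply filter_true_of_mem
        intro k hk
        rw [mem_filter, mem_range] at hk
        exact hk.1
      rw [hfil] at hsteps
      simp only [zero_mul] at hsteps
      rw [ray_zero v n i hi1] at hsteps
      have hlast := h40_M_ray hco c v n i (P * r) (n - P * r) (by omega)
      have e1 : P * r + (n - P * r) = n := by omega
      rw [e1, ray_last] at hlast
      have h1 : exp (-(3 * Λ * ((n - P * r : ℕ) : ℝ))) *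
          (exp (-(ε / 4 * r * P + 3 * Λ * r * (Ex i).card)) * M X T c v) <
          exp (-(ε * n)) * M X T c v :=
        lt_of_le_of_lt ((mul_le_mul_of_nonneg_left hsteps (exp_pos _).le).trans hlast) hi2
      rw [← mul_assoc, ← exp_add] at h1
      have h2 := lt_of_mul_lt_mul_right h1 (h40_M_pos _ _ _ _).le
      rw [exp_lt_exp] at h2
      have h3 : ((n - P * r : ℕ) : ℝ) ≤ E := by
        exact_mod_cast (by omega : n - P * r ≤ E)
      have h4 : (P : ℝ) * r ≤ n := by exact_mod_cast hPn
      have h5 : 3 * Λ * ((n - P * r : ℕ) : ℝ) ≤ 3 * Λ * E :=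
        mul_le_mul_of_nonneg_left h3 (by positivity)
      have h6 : ε / 4 * r * P ≤ ε / 4 * n := by
        calc ε / 4 * r * P = ε / 4 * (P * r) := by ring
          _ ≤ _ := mul_le_mul_of_nonneg_left h4 (by positivity)
      have h7 : ε / 2 * n ≤ 3 * Λ * r * (Ex i).card := by linarith
      have h8 : ε / 2 * (P * r) ≤ 3 * Λ * r * (Ex i).card :=
        (mul_le_mul_of_nonneg_left h4 (by positivity)).trans h7
      have hr0 : (0 : ℝ) < r := by exact_mod_cast hr1
      have h9 : ε * P * r ≤ (6 * Λ * (Ex i).card) * r := by linarith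
      have h10 := le_of_mul_le_mul_right h9 hr0
      rw [div_le_iff₀ (by positivity)]
      linarith
    · -- good pieces
      intro k hk hkE
      have hkr := hpiece k hk
      have hnot : ¬ ((¬ U i k ∧ ¬ D i k) ∨ (U i k ∧ Dr i k)) := by
        intro h1
        apply hkE
        rw [mem_filter, mem_range]
        exact ⟨hk, h1⟩
      push Not at hnot
      have e3 : (k + 1) * r = k * r + r := by ring
      change exp (-(ε / 4 * r)) * M X T c (ray v n i (k * r)) ≤
        M X T c (ray v n i ((k + 1) * r))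
      rw [e3]
      by_cases hU : U i k
      · exact not_lt.1 (hnot.2 hU)
      · have hD := hnot.1 hU
        have e2 : ∀ b ≤ r, ray (ray v n i (k * r)) r (i / 2 ^ (n - (k * r + r)) % 2 ^ r) b =
            ray v n i (k * r + b) := fun b hb => ray_ray v n i (k * r) r b hkr hb
        have h1 := hdown X Y T hco c (ray v n i (k * r)) r
          (i / 2 ^ (n - (k * r + r)) % 2 ^ r) hrd (Nat.mod_lt _ (by positivity)) (by
            intro b b' hb hb'
            have h4 := hD b b' hb hb'
            change - T (ray v n i (k * r + b)) ≤ - T (ray v n i (k * r + b')) + ε₃ * r at h4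
            change - T (ray (ray v n i (k * r)) r _ b) ≤
              - T (ray (ray v n i (k * r)) r _ b') + ε₃ * r
            rw [e2 b (hb.trans hb'), e2 b' hb']
            exact h4)
        rw [← ray_last, e2 r le_rfl] at h1
        refine le_trans ?_ h1
        apply mul_le_mul_of_nonneg_right _ (h40_M_pos _ _ _ _).le
        apply exp_le_exp.2
        have h2 : ε₃ ≤ ε / 8 := min_le_right _ _
        have h3 : 2 * ε₃ * r ≤ ε / 4 * r :=
          mul_le_mul_of_nonneg_right (by linarith) (Nat.cast_nonneg _)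
        linarith
    · -- bad pieces
      intro k hk _
      have hkr := hpiece k hk
      have e3 : (k + 1) * r = k * r + r := by ring
      change exp (-(3 * Λ * r)) * M X T c (ray v n i (k * r)) ≤
        M X T c (ray v n i ((k + 1) * r))
      rw [e3]
      exact h40_M_ray hco c v n i (k * r) r hkr
  -- Markov
  have hSsub : S ⊆ range (2 ^ n) := fun i hi => mem_range.2 (hS i hi).1
  have hsum : (∑ i ∈ S, ((Ex i).card : ℝ)) ≤ B.card + C.card := by
    have h1 : (∑ i ∈ S, (Ex i).card) ≤ B.card + C.card := by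
      calc (∑ i ∈ S, (Ex i).card) ≤ ∑ i ∈ range (2 ^ n), (Ex i).card :=
            sum_le_sum_of_subset hSsub
        _ = (((range (2 ^ n)) ×ˢ (range P)).filter fun x =>
              (¬ U x.1 x.2 ∧ ¬ D x.1 x.2) ∨ (U x.1 x.2 ∧ Dr x.1 x.2)).card := by
            rw [card_eq_sum_card_fiberwise (f := Prod.fst) (t := range (2 ^ n))]
            · apply sum_congr rfl
              intro i hi
              symm
              apply card_bij (fun x _ => x.2)
              · intro x hx
                rw [mem_filter, mem_filter, mem_product] at hx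
                obtain ⟨⟨⟨h1, h2⟩, h3⟩, rfl⟩ := hx
                rw [mem_filter]
                exact ⟨h2, h3⟩
              · intro x hx x' hx' he
                rw [mem_filter] at hx hx'
                exact Prod.ext (hx.2.trans hx'.2.symm) he
              · intro k hk
                rw [mem_filter] at hk
                refine ⟨(i, k), ?_, rfl⟩
                rw [mem_filter, mem_filter, mem_product]
                exact ⟨⟨⟨hi, hk.1⟩, hk.2⟩, rfl⟩
            · intro x hx
              rw [mem_coe, mem_filter, mem_product] at hx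
              exact hx.1.1
        _ = (B ∪ C).card := by
            rw [filter_or]
        _ ≤ B.card + C.card := card_union_le _ _
    exact_mod_cast h1
  have hlow : (S.card : ℝ) * (ε * P / (6 * Λ)) ≤ ∑ i ∈ S, ((Ex i).card : ℝ) := by
    rw [← nsmul_eq_mul, ← sum_const]
    exact sum_le_sum hExcard
  have hP0 : (0 : ℝ) < P := by exact_mod_cast hP
  have h1 : (S.card : ℝ) * (ε * P / (6 * Λ)) ≤ 2 * (κ₁ * 2 ^ n * P) := by linarith
  have h2 : 2 * (κ₁ * 2 ^ n * P) = (κ / 2 * 2 ^ n) * (ε * P / (6 * Λ)) := by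
    rw [hκ₁]
    field_simp
    ring
  rw [h2] at h1
  have h3 := le_of_mul_le_mul_right h1 (by positivity)
  have h4 : κ / 2 * 2 ^ n ≤ κ * 2 ^ n := by
    apply mul_le_mul_of_nonneg_right _ (by positivity)
    linarith
  exact h3.trans h4

end Helper67.SQ
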