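import Pool.Agent.Helper67.SQ.Comb

/-!
# Bounds for the Riemannian distance of Sol (MP_9b5db0_gt, block R10)
-/

namespace Helper67.SQ

open Real MeasureTheory

/-! ### upper bound -/

theorem h40_arc_lin (P Q : Sol) (L : ℝ) (h : ∀ s : ℝ, 
    √(exp (2 * (P.t + s * (Q.t - P.t))) * (Q.x - P.x) ^ 2 +
      exp (-2 * (P.t + s * (Q.t - P.t))) * (Q.y - P.y) ^ 2 + (Q.t - P.t) ^ 2) = L) :
    IsArc P Q L := by
  have hd : ∀ a b s : ℝ, HasDerivAt (fun s => a + s * (b - a)) (b - a) s := by
    intro a b s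
    simpa using ((hasDerivAt_id s).mul_const (b - a)).const_add a
  refine ⟨fun s => P.x + s * (Q.x - P.x), fun s => P.y + s * (Q.y - P.y),
    fun s => P.t + s * (Q.t - P.t), fun _ => Q.x - P.x, fun _ => Q.y - P.y, fun _ => Q.t - P.t,
    hd _ _, hd _ _, hd _ _, continuous_const, continuous_const, continuous_const,
    by simp, by simp, by simp, by simp, by simp, by simp, ?_⟩
  simp only [h]
  simp

theorem h40_vert (x y t t' : ℝ) : IsArc ⟨x, y, t⟩ ⟨x, y, t'⟩ |t' - t| := by
  apply h40_arc_lin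
  intro s
  simp only [sub_self]
  rw [← sqrt_sq_eq_abs]
  congr 1
  ring

theorem h40_horx (x x' y t : ℝ) : IsArc ⟨x, y, t⟩ ⟨x', y, t⟩ (exp t * |x' - x|) := by
  apply h40_arc_lin
  intro s
  simp only [sub_self]
  have e : exp (2 * (t + s * 0)) * (x' - x) ^ 2 + exp (-2 * (t + s * 0)) * 0 ^ 2 + 0 ^ 2 =
      (exp t * |x' - x|) ^ 2 := by
    rw [mul_pow, sq_abs, ← exp_nat_mul]
    push_cast
    ring_nf
  rw [e]
  exact sqrt_sq (by positivity)

theorem h40_hory (x y y' t : ℝ) : IsArc ⟨x, y, t⟩ ⟨x, y', t⟩ (exp (-t) * |y' - y|) := by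
  apply h40_arc_lin
  intro s
  simp only [sub_self]
  have e : exp (2 * (t + s * 0)) * 0 ^ 2 + exp (-2 * (t + s * 0)) * (y' - y) ^ 2 + 0 ^ 2 =
      (exp (-t) * |y' - y|) ^ 2 := by
    rw [mul_pow, sq_abs, ← exp_nat_mul]
    push_cast
    ring_nf
  rw [e]
  exact sqrt_sq (by positivity)

theorem h40_arc_nonneg {P Q : Sol} {l : ℝ} (h : IsArc P Q l) : 0 ≤ l := by
  obtain ⟨x, y, t, x', y', t', -, -, -, -, -, -, -, -, -, -, -, -, rfl⟩ := h
  exact intervalIntegral.integral_nonneg (by norm_num) fun s _ => sqrt_nonneg _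

theorem h40_path_nonneg {P Q : Sol} {l : ℝ} (h : IsPath P Q l) : 0 ≤ l := by
  induction h with
  | nil P => exact le_rfl
  | cons h1 _ ih => exact add_nonneg (h40_arc_nonneg h1) ih

theorem h40_bdd (P Q : Sol) : BddBelow {l | IsPath P Q l} :=
  ⟨0, fun _ h => h40_path_nonneg h⟩

theorem h40_path (P Q : Sol) (a b : ℝ) : IsPath P Q
    (|a - P.t| + (exp a * |Q.x - P.x| + (|b - a| + (exp (-b) * |Q.y - P.y| +
      (|Q.t - b| + 0))))) := by
  obtain ⟨x, y, t⟩ := P
  obtain ⟨x', y', t'⟩ := Q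
  exact .cons (h40_vert x y t a) (.cons (h40_horx x x' y a) (.cons (h40_vert x' y a b)
    (.cons (h40_hory x' y y' b) (.cons (h40_vert x' y' b t') (.nil _)))))

theorem solDist_le (P Q : Sol) (a b : ℝ) : solDist P Q ≤
    |P.t - a| + exp a * |P.x - Q.x| + |b - a| + exp (-b) * |P.y - Q.y| + |b - Q.t| := by
  refine (csInf_le (h40_bdd P Q) (h40_path P Q a b)).trans (le_of_eq ?_)
  rw [abs_sub_comm a P.t, abs_sub_comm Q.x, abs_sub_comm Q.y, abs_sub_comm Q.t]
  ring

/-! ### lower bound -/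

theorem h40_abs_le_of_deriv {x x' v : ℝ → ℝ} (hx : ∀ s, HasDerivAt x (x' s) s)
    (hc : Continuous x') (hv : Continuous v) {s : ℝ} (hs : 0 ≤ s)
    (h : ∀ r, 0 ≤ r → r ≤ s → |x' r| ≤ v r) : |x s - x 0| ≤ ∫ r in (0 : ℝ)..s, v r := by
  have h1 : ∫ r in (0 : ℝ)..s, x' r = x s - x 0 :=
    intervalIntegral.integral_eq_sub_of_hasDerivAt (fun r _ => hx r)
      (hc.intervalIntegrable _ _)
  rw [← h1]
  refine (intervalIntegral.abs_integral_le_integral_abs hs).trans ?_
  apply intervalIntegral.integral_mono_on hs (hc.abs.intervalIntegrable _ _)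
    (hv.intervalIntegrable _ _)
  intro r hr
  exact h r hr.1 hr.2

theorem h40_arc_lower {P Q : Sol} {l : ℝ} (h : IsArc P Q l) : |P.t - Q.t| ≤ l ∧
    |P.x - Q.x| ≤ l * exp l * exp (-P.t) ∧ |P.y - Q.y| ≤ l * exp l * exp P.t := by
  have hl := h40_arc_nonneg h
  obtain ⟨x, y, t, x', y', t', hx, hy, ht, hx', hy', ht', hx0, hy0, ht0, hx1, hy1, ht1, rfl⟩ := h
  set v : ℝ → ℝ := fun s => √(exp (2 * t s) * x' s ^ 2 + exp (-2 * t s) * y' s ^ 2 + t' s ^ 2)
    with hv
  have htc : Continuous t := continuous_iff_continuousAt.2 fun s => (ht s).continuousAt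
  have hvc : Continuous v := by
    rw [hv]
    fun_prop
  have hvt : ∀ s, |t' s| ≤ v s := by
    intro s
    rw [← sqrt_sq_eq_abs]
    apply sqrt_le_sqrt
    have h1 : 0 ≤ exp (2 * t s) * x' s ^ 2 := by positivity
    have h2 : 0 ≤ exp (-2 * t s) * y' s ^ 2 := by positivity
    linarith
  have hvx : ∀ s, exp (t s) * |x' s| ≤ v s := by
    intro s
    apply le_sqrt_of_sq_le
    have e : (exp (t s) * |x' s|) ^ 2 = exp (2 * t s) * x' s ^ 2 := by
      rw [mul_pow, sq_abs, ← exp_nat_mul]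
      push_cast
      ring
    rw [e]
    have h2 : 0 ≤ exp (-2 * t s) * y' s ^ 2 := by positivity
    have h3 : 0 ≤ t' s ^ 2 := by positivity
    linarith
  have hvy : ∀ s, exp (-t s) * |y' s| ≤ v s := by
    intro s
    apply le_sqrt_of_sq_le
    have e : (exp (-t s) * |y' s|) ^ 2 = exp (-2 * t s) * y' s ^ 2 := by
      rw [mul_pow, sq_abs, ← exp_nat_mul]
      push_cast
      ring_nf
    rw [e]
    have h2 : 0 ≤ exp (2 * t s) * x' s ^ 2 := by positivity
    have h3 : 0 ≤ t' s ^ 2 := by positivity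
    linarith
  have hv0 : ∀ s, 0 ≤ v s := fun s => sqrt_nonneg _
  -- the part of the integral up to `s`
  have hpart : ∀ s, 0 ≤ s → s ≤ 1 → ∫ r in (0 : ℝ)..s, v r ≤ ∫ r in (0 : ℝ)..1, v r := by
    intro s hs hs1
    have h1 := intervalIntegral.integral_add_adjacent_intervals
      (hvc.intervalIntegrable (μ := volume) 0 s) (hvc.intervalIntegrable (μ := volume) s 1)
    have h2 : 0 ≤ ∫ r in s..1, v r := intervalIntegral.integral_nonneg hs1 fun r _ => hv0 r
    linarith
  set l := ∫ r in (0 : ℝ)..1, v r with hldef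
  have htl : ∀ s, 0 ≤ s → s ≤ 1 → |t s - t 0| ≤ l := fun s hs hs1 =>
    (h40_abs_le_of_deriv ht ht' hvc hs fun r _ _ => hvt r).trans (hpart s hs hs1)
  refine ⟨?_, ?_, ?_⟩
  · have := htl 1 (by norm_num) le_rfl
    rw [ht0, ht1, abs_sub_comm] at this
    exact this
  · have h1 : |x 1 - x 0| ≤ ∫ r in (0 : ℝ)..1, exp l * exp (-P.t) * v r := by
      apply h40_abs_le_of_deriv hx hx' (by fun_prop) (by norm_num)
      intro r hr hr1
      have h2 := (abs_le.1 (htl r hr hr1)).1
      rw [ht0] at h2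
      have h3 : 1 ≤ exp l * exp (-P.t) * exp (t r) := by
        rw [← exp_add, ← exp_add]
        apply one_le_exp
        linarith
      calc |x' r| = 1 * |x' r| := (one_mul _).symm
        _ ≤ (exp l * exp (-P.t) * exp (t r)) * |x' r| :=
          mul_le_mul_of_nonneg_right h3 (abs_nonneg _)
        _ = exp l * exp (-P.t) * (exp (t r) * |x' r|) := by ring
        _ ≤ _ := mul_le_mul_of_nonneg_left (hvx r) (by positivity)
    rw [intervalIntegral.integral_const_mul, hx0, hx1, abs_sub_comm] at h1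
    calc |P.x - Q.x| ≤ exp l * exp (-P.t) * l := h1
      _ = _ := by ring
  · have h1 : |y 1 - y 0| ≤ ∫ r in (0 : ℝ)..1, exp l * exp P.t * v r := by
      apply h40_abs_le_of_deriv hy hy' (by fun_prop) (by norm_num)
      intro r hr hr1
      have h2 := (abs_le.1 (htl r hr hr1)).2
      rw [ht0] at h2
      have h3 : 1 ≤ exp l * exp P.t * exp (-t r) := by
        rw [← exp_add, ← exp_add]
        apply one_le_exp
        linarith
      calc |y' r| = 1 * |y' r| := (one_mul _).symm
        _ ≤ (exp l * exp P.t * exp (-t r)) * |y' r| :=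
          mul_le_mul_of_nonneg_right h3 (abs_nonneg _)
        _ = exp l * exp P.t * (exp (-t r) * |y' r|) := by ring
        _ ≤ _ := mul_le_mul_of_nonneg_left (hvy r) (by positivity)
    rw [intervalIntegral.integral_const_mul, hy0, hy1, abs_sub_comm] at h1
    calc |P.y - Q.y| ≤ exp l * exp P.t * l := h1
      _ = _ := by ring

theorem h40_path_lower {P Q : Sol} {l : ℝ} (h : IsPath P Q l) : |P.t - Q.t| ≤ l ∧
    |P.x - Q.x| ≤ l * exp l * exp (-P.t) ∧ |P.y - Q.y| ≤ l * exp l * exp P.t := by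
  induction h with
  | nil P => simp
  | @cons P Q R l l' h1 h2 ih =>
    obtain ⟨a1, a2, a3⟩ := h40_arc_lower h1
    obtain ⟨b1, b2, b3⟩ := ih
    have hl := h40_arc_nonneg h1
    have hl' := h40_path_nonneg h2
    have hq := abs_le.1 a1
    refine ⟨?_, ?_, ?_⟩
    · calc |P.t - R.t| ≤ |P.t - Q.t| + |Q.t - R.t| := abs_sub_le _ _ _
        _ ≤ l + l' := add_le_add a1 b1
    · have h3 : exp (-Q.t) ≤ exp l * exp (-P.t) := by
        rw [← exp_add]
        apply exp_le_exp.2
        linarith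
      have h4 : l' * exp l' * exp (-Q.t) ≤ l' * exp l' * (exp l * exp (-P.t)) :=
        mul_le_mul_of_nonneg_left h3 (by positivity)
      have h5 : l * exp l * exp (-P.t) ≤ l * (exp l * exp l') * exp (-P.t) := by
        apply mul_le_mul_of_nonneg_right _ (exp_pos _).le
        apply mul_le_mul_of_nonneg_left _ hl
        exact le_mul_of_one_le_right (exp_pos _).le (one_le_exp hl')
      calc |P.x - R.x| ≤ |P.x - Q.x| + |Q.x - R.x| := abs_sub_le _ _ _
        _ ≤ l * (exp l * exp l') * exp (-P.t) + l' * exp l' * (exp l * exp (-P.t)) :=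
          add_le_add (a2.trans h5) (b2.trans h4)
        _ = (l + l') * exp (l + l') * exp (-P.t) := by rw [exp_add]; ring
    · have h3 : exp Q.t ≤ exp l * exp P.t := by
        rw [← exp_add]
        apply exp_le_exp.2
        linarith
      have h4 : l' * exp l' * exp Q.t ≤ l' * exp l' * (exp l * exp P.t) :=
        mul_le_mul_of_nonneg_left h3 (by positivity)
      have h5 : l * exp l * exp P.t ≤ l * (exp l * exp l') * exp P.t := by
        apply mul_le_mul_of_nonneg_right _ (exp_pos _).le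
        apply mul_le_mul_of_nonneg_left _ hl
        exact le_mul_of_one_le_right (exp_pos _).le (one_le_exp hl')
      calc |P.y - R.y| ≤ |P.y - Q.y| + |Q.y - R.y| := abs_sub_le _ _ _
        _ ≤ l * (exp l * exp l') * exp P.t + l' * exp l' * (exp l * exp P.t) :=
          add_le_add (a3.trans h5) (b3.trans h4)
        _ = (l + l') * exp (l + l') * exp P.t := by rw [exp_add]; ring

theorem solDist_lower (P Q : Sol) : |P.t - Q.t| ≤ solDist P Q ∧
    |P.x - Q.x| ≤ solDist P Q * exp (solDist P Q) * exp (-P.t) ∧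
    |P.y - Q.y| ≤ solDist P Q * exp (solDist P Q) * exp P.t := by
  have hcl : IsClosed {l : ℝ | |P.t - Q.t| ≤ l ∧ |P.x - Q.x| ≤ l * exp l * exp (-P.t) ∧
      |P.y - Q.y| ≤ l * exp l * exp P.t} := by
    have c1 : Continuous (fun l : ℝ => l * exp l * exp (-P.t)) := by fun_prop
    have c2 : Continuous (fun l : ℝ => l * exp l * exp P.t) := by fun_prop
    exact (isClosed_le continuous_const continuous_id).inter
      ((isClosed_le continuous_const c1).inter (isClosed_le continuous_const c2))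
  have hmem : solDist P Q ∈ closure {l | IsPath P Q l} :=
    csInf_mem_closure ⟨_, h40_path P Q 0 0⟩ (h40_bdd P Q)
  exact closure_minimal (fun l hl => h40_path_lower hl) hcl hmem

end Helper67.SQ
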